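import Pool.Agent.TH795.LT.Fin

/-!
# Eigenvalue sums exceeding `ħ^{-d}` for complex potentials in every dimension `d ≥ 2`

For all `d ≥ 2` and `γ > 0` there is one potential `V = i W`, `0 ≤ W ≤ 1`, radial, continuous,
tending to `0` at infinity and in `L^{γ+d/2}(ℝᵈ)`, such that for every `0 ≤ σ ≤ d/2` the sums
`S_{γ,σ}(V,ħ) = ∑_j |E_j|^{-σ} δ(E_j)^{γ+σ}` satisfy `limsup_{ħ → 0} ħ^d S_{γ,σ}(V,ħ) = ∞`.
-/

set_option autoImplicit false

open MeasureTheory Filter Topology Set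
open scoped ENNReal

namespace Pool.Agent.Results.MP_c84763_mp.EigenvalueSumsAllDim

open Pool.Agent.Helper41.CE (E)
open Pool.Agent.TH795.LT (eigS)

theorem result (d : ℕ) (hd : 2 ≤ d) (γ : ℝ) (hγ : 0 < γ) :
    ∃ V : E d → ℂ, Continuous V ∧ Tendsto V (cocompact (E d)) (𝓝 0) ∧
      (∀ x, (V x).re = 0 ∧ 0 ≤ (V x).im ∧ (V x).im ≤ 1) ∧
      (∀ x y, ‖x‖ = ‖y‖ → V x = V y) ∧
      MemLp V (ENNReal.ofReal (γ + (d : ℝ) / 2)) volume ∧
      ∀ σ : ℝ, 0 ≤ σ → σ ≤ (d : ℝ) / 2 →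
        limsup (fun ħ : ℝ => ENNReal.ofReal (ħ ^ d) * eigS γ σ V ħ) (𝓝[>] 0) = ⊤ := by
  obtain ⟨W, hW, hWb, V, hV, h1, h2, h3⟩ := Pool.Agent.TH795.LT.main hd hγ
  have hVe : V = fun x => (W ‖x‖ : ℂ) * Complex.I := funext hV
  refine ⟨V, ?_, h1, ?_, ?_, h2, h3⟩
  · rw [hVe]
    exact (Complex.continuous_ofReal.comp (hW.comp continuous_norm)).mul continuous_const
  · intro x
    rw [hV x]
    have := hWb ‖x‖
    simpa using this
  · intro x y hxy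
    rw [hV x, hV y, hxy]

end Pool.Agent.Results.MP_c84763_mp.EigenvalueSumsAllDim
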